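import Mathlib

/-!
# Domains which are finitely generated and algebraic over the integers

Such a domain of characteristic zero becomes the ring of integers of its field of fractions after
inverting a non-zero integer.
-/

set_option autoImplicit false

namespace Pool.Agent.Q27.BG

open NumberField

/-- Rings between a ring and its localization. -/
lemma away_equiv {C D : Type} [CommRing C] [CommRing D] (f : C →+* D) (hf : Function.Injective f)
    (m : C) (hm : IsUnit (f m)) (hs : ∀ z, ∃ (n : ℕ) (c : C), z * f m ^ n = f c) :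
    Nonempty (Localization.Away m ≃+* D) := by
  let _ : Algebra C D := f.toAlgebra
  have hloc : IsLocalization.Away m D := by
    refine ⟨?_, ?_, ?_⟩
    · rintro ⟨_, n, rfl⟩
      change IsUnit (f (m ^ n))
      rw [map_pow]
      exact hm.pow n
    · intro z
      obtain ⟨n, c, h⟩ := hs z
      refine ⟨(c, ⟨m ^ n, n, rfl⟩), ?_⟩
      change z * f (m ^ n) = f c
      rw [map_pow, h]
    · intro x y hxy
      exact ⟨1, by rw [hf hxy]⟩
  exact ⟨(IsLocalization.algEquiv (Submonoid.powers m) (Localization.Away m) D).toRingEquiv⟩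

/-- Two subrings of a field with the same localization. -/
lemma away_equiv_two {C E K : Type} [CommRing C] [CommRing E] [Field K] (f : C →+* K)
    (g : E →+* K) (hf : Function.Injective f) (hg : Function.Injective g) (m : ℤ)
    (hm : (m : K) ≠ 0) (h1 : ∀ c, ∃ (k : ℕ) (e : E), (m : K) ^ k * f c = g e)
    (h2 : ∀ e, ∃ (k : ℕ) (c : C), (m : K) ^ k * g e = f c) :
    Nonempty (Localization.Away (m : C) ≃+* Localization.Away (m : E)) := by
  let D : Subring K :=
    { carrier := {x | ∃ (k : ℕ) (c : C), (m : K) ^ k * x = f c}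
      mul_mem' := by
        rintro x y ⟨k, c, hx⟩ ⟨l, d, hy⟩
        refine ⟨k + l, c * d, ?_⟩
        rw [map_mul, ← hx, ← hy, pow_add]
        ring
      one_mem' := ⟨0, 1, by simp⟩
      add_mem' := by
        rintro x y ⟨k, c, hx⟩ ⟨l, d, hy⟩
        refine ⟨k + l, (m : C) ^ l * c + (m : C) ^ k * d, ?_⟩
        rw [map_add, map_mul, map_mul, map_pow, map_pow, map_intCast, ← hx, ← hy, pow_add]
        ring
      zero_mem' := ⟨0, 0, by simp⟩
      neg_mem' := by
        rintro x ⟨k, c, hx⟩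
        exact ⟨k, -c, by rw [map_neg, ← hx, mul_neg]⟩ }
  have hfD : ∀ c, f c ∈ D := fun c => ⟨0, c, by simp⟩
  have hinv : (m : K)⁻¹ ∈ D := ⟨1, 1, by rw [pow_one, mul_inv_cancel₀ hm, map_one]⟩
  let f' : C →+* D := f.codRestrict D hfD
  let g' : E →+* D := g.codRestrict D h2
  have hmD : IsUnit (m : D) := by
    refine IsUnit.of_mul_eq_one ⟨(m : K)⁻¹, hinv⟩ (Subtype.ext ?_)
    change ((m : D) : K) * (m : K)⁻¹ = 1
    rw [SubringClass.coe_intCast, mul_inv_cancel₀ hm]
  obtain ⟨e1⟩ := away_equiv f' (fun x y h => hf (congrArg Subtype.val h)) (m : C)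
    (by rw [map_intCast]; exact hmD) (by
      rintro ⟨x, k, c, hx⟩
      refine ⟨k, c, Subtype.ext ?_⟩
      change x * ((f' (m : C) : D) : K) ^ k = f c
      rw [map_intCast, SubringClass.coe_intCast, mul_comm, hx])
  obtain ⟨e2⟩ := away_equiv g' (fun x y h => hg (congrArg Subtype.val h)) (m : E)
    (by rw [map_intCast]; exact hmD) (by
      rintro ⟨x, k, c, hx⟩
      obtain ⟨l, e, he⟩ := h1 c
      refine ⟨k + l, e, Subtype.ext ?_⟩
      change x * ((g' (m : E) : D) : K) ^ (k + l) = g e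
      rw [map_intCast, SubringClass.coe_intCast, ← he, ← hx, pow_add]
      ring)
  exact ⟨e1.trans e2.symm⟩

section frac

variable (B K : Type) [CommRing B] [IsDomain B] [CharZero B] [Algebra.FiniteType ℤ B]
  [Algebra.IsAlgebraic ℤ B] [Field K] [Algebra B K] [IsFractionRing B K]

include B in
lemma num_field : NumberField K := by
  have hK0 : CharZero K := charZero_of_injective_algebraMap (IsFractionRing.injective B K)
  have hBK : Algebra.IsAlgebraic B K := IsLocalization.isAlgebraic K (nonZeroDivisors B)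
  have hZK : Algebra.IsAlgebraic ℤ K := Algebra.IsAlgebraic.trans ℤ B K
  have hQK : Algebra.IsAlgebraic ℚ K :=
    Algebra.IsAlgebraic.extendScalars (R := ℤ) (S := ℚ) (A := K) (algebraMap ℤ ℚ).injective_int
  have hef : Algebra.EssFiniteType B K :=
    Algebra.EssFiniteType.of_isLocalization K (nonZeroDivisors B)
  have hef2 : Algebra.EssFiniteType ℤ K := Algebra.EssFiniteType.comp ℤ B K
  have hef3 : Algebra.EssFiniteType ℚ K := Algebra.EssFiniteType.of_comp ℤ ℚ K
  have hfd : FiniteDimensional ℚ K := Algebra.finite_of_essFiniteType_of_isAlgebraic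
  exact { }

omit [CharZero B] [IsDomain B] [IsFractionRing B K] in
/-- denominators of the elements of `B` -/
lemma den_one : ∃ M : ℤ, M ≠ 0 ∧ ∀ b : B, ∃ (k : ℕ) (e : 𝓞 K), (M : K) ^ k * algebraMap B K b =
    algebraMap (𝓞 K) K e := by
  classical
  let ι : B →+* K := algebraMap B K
  obtain ⟨S, hS⟩ := (Algebra.FiniteType.out : (⊤ : Subalgebra ℤ B).FG)
  have hs : ∀ s : B, ∃ y : ℤ, y ≠ 0 ∧ IsIntegral ℤ (y • s) := fun s =>
    (Algebra.IsAlgebraic.isAlgebraic (R := ℤ) s).exists_integral_multiple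
  choose y hy0 hy using hs
  refine ⟨∏ s ∈ S, y s, Finset.prod_ne_zero_iff.2 fun s _ => hy0 s, fun b => ?_⟩
  set M : ℤ := ∏ s ∈ S, y s with hM
  have hMi : IsIntegral ℤ (M : B) := isIntegral_algebraMap (R := ℤ) (A := B) (x := M)
  have hb : b ∈ Algebra.adjoin ℤ (S : Set B) := by
    rw [hS]
    trivial
  have key : ∃ k : ℕ, IsIntegral ℤ ((M : B) ^ k * b) := by
    induction hb using Algebra.adjoin_induction with
    | mem x hx =>
      refine ⟨1, ?_⟩
      have h1 : (M : B) ^ 1 * x = ((∏ s ∈ S.erase x, y s : ℤ) : B) * (y x • x) := by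
        rw [hM, ← Finset.mul_prod_erase S y (Finset.mem_coe.1 hx), zsmul_eq_mul, Int.cast_mul]
        ring
      rw [h1]
      exact (isIntegral_algebraMap (R := ℤ) (A := B) (x := (∏ s ∈ S.erase x, y s : ℤ))).mul (hy x)
    | algebraMap r =>
      refine ⟨0, ?_⟩
      rw [pow_zero, one_mul]
      exact isIntegral_algebraMap
    | add x z _ _ hx hz =>
      obtain ⟨k, hk⟩ := hx
      obtain ⟨l, hl⟩ := hz
      refine ⟨k + l, ?_⟩
      have h1 : (M : B) ^ (k + l) * (x + z) =
          (M : B) ^ l * ((M : B) ^ k * x) + (M : B) ^ k * ((M : B) ^ l * z) := by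
        rw [pow_add]
        ring
      rw [h1]
      exact ((hMi.pow l).mul hk).add ((hMi.pow k).mul hl)
    | mul x z _ _ hx hz =>
      obtain ⟨k, hk⟩ := hx
      obtain ⟨l, hl⟩ := hz
      refine ⟨k + l, ?_⟩
      have h1 : (M : B) ^ (k + l) * (x * z) = ((M : B) ^ k * x) * ((M : B) ^ l * z) := by
        rw [pow_add]
        ring
      rw [h1]
      exact hk.mul hl
  obtain ⟨k, hk⟩ := key
  have h3 : IsIntegral ℤ (ι ((M : B) ^ k * b)) := map_isIntegral_int ι hk
  refine ⟨k, ⟨_, h3⟩, ?_⟩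
  change (M : K) ^ k * ι b = ι ((M : B) ^ k * b)
  rw [map_mul, map_pow, map_intCast]

omit [CharZero B] [Algebra.FiniteType ℤ B] in
/-- denominators of the algebraic integers -/
lemma den_two [NumberField K] :
    ∃ M : ℤ, M ≠ 0 ∧ ∀ e : 𝓞 K, ∃ b : B, (M : K) * algebraMap (𝓞 K) K e = algebraMap B K b := by
  classical
  let ι : B →+* K := algebraMap B K
  have hι : Function.Injective ι := IsFractionRing.injective B K
  obtain ⟨S, hS⟩ := (Module.finite_def.1 (inferInstance : Module.Finite ℤ (𝓞 K)))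
  have hs : ∀ e : 𝓞 K, ∃ y : ℤ, y ≠ 0 ∧ ∃ b : B, (y : K) * algebraMap (𝓞 K) K e = ι b := by
    intro e
    obtain ⟨a, b, hb, hab⟩ := IsFractionRing.div_surjective (A := B) (algebraMap (𝓞 K) K e)
    obtain ⟨r, hr, c, hc⟩ := (Algebra.IsAlgebraic.isAlgebraic (R := ℤ) b).exists_nonzero_dvd hb
    refine ⟨r, hr, c * a, ?_⟩
    have hb0 : ι b ≠ 0 := by
      rw [Ne, map_eq_zero_iff ι hι]
      exact nonZeroDivisors.ne_zero hb
    have h1 : (r : K) = ι b * ι c := by
      rw [← map_mul, ← hc, eq_intCast, map_intCast]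
    have h2 : algebraMap (𝓞 K) K e = ι a * (ι b)⁻¹ := by
      rw [← hab, div_eq_mul_inv]
    rw [h2, h1, map_mul]
    linear_combination (ι c * ι a) * mul_inv_cancel₀ hb0
  choose y hy0 hy using hs
  refine ⟨∏ s ∈ S, y s, Finset.prod_ne_zero_iff.2 fun s _ => hy0 s, fun e => ?_⟩
  set M : ℤ := ∏ s ∈ S, y s with hM
  have he : e ∈ Submodule.span ℤ (S : Set (𝓞 K)) := by
    rw [hS]
    trivial
  induction he using Submodule.span_induction with
  | mem x hx =>
    obtain ⟨b, hb⟩ := hy x
    refine ⟨((∏ s ∈ S.erase x, y s : ℤ) : B) * b, ?_⟩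
    have hb' : (y x : K) * algebraMap (𝓞 K) K x = algebraMap B K b := hb
    rw [map_mul, ← hb', map_intCast, hM, ← Finset.mul_prod_erase S y (Finset.mem_coe.1 hx),
      Int.cast_mul]
    ring
  | zero => exact ⟨0, by simp⟩
  | add x z _ _ hx hz =>
    obtain ⟨b, hb⟩ := hx
    obtain ⟨c, hc⟩ := hz
    exact ⟨b + c, by rw [map_add, map_add, mul_add, hb, hc]⟩
  | smul r x _ hx =>
    obtain ⟨b, hb⟩ := hx
    refine ⟨(r : B) * b, ?_⟩
    rw [zsmul_eq_mul, map_mul, map_mul, map_intCast, map_intCast, ← hb]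
    ring

omit [CharZero B] in
lemma order_aux [NumberField K] :
    ∃ m : ℤ, m ≠ 0 ∧ Nonempty (Localization.Away (m : 𝓞 K) ≃+* Localization.Away (m : B)) := by
  have hι : Function.Injective (algebraMap B K) := IsFractionRing.injective B K
  obtain ⟨M1, hM10, h1⟩ := den_one B K
  obtain ⟨M2, hM20, h2⟩ := den_two B K
  have hm0 : M1 * M2 ≠ 0 := mul_ne_zero hM10 hM20
  have hK : ((M1 * M2 : ℤ) : K) ≠ 0 := Int.cast_ne_zero.2 hm0
  refine ⟨M1 * M2, hm0, ?_⟩
  refine away_equiv_two (algebraMap (𝓞 K) K) (algebraMap B K)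
    (FaithfulSMul.algebraMap_injective _ _) hι (M1 * M2) hK (fun e => ?_) fun b => ?_
  · obtain ⟨b, hb⟩ := h2 e
    refine ⟨1, (M1 : B) * b, ?_⟩
    rw [map_mul, ← hb, map_intCast, Int.cast_mul]
    ring
  · obtain ⟨k, e, he⟩ := h1 b
    refine ⟨k, (M2 : 𝓞 K) ^ k * e, ?_⟩
    rw [map_mul, ← he, map_pow, map_intCast, Int.cast_mul]
    ring

end frac

/-- A domain of characteristic zero which is finitely generated and algebraic over the integers
becomes the ring of integers of a number field after inverting a non-zero integer. -/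
theorem exists_order (B : Type) [CommRing B] [IsDomain B] [CharZero B] [Algebra.FiniteType ℤ B]
    [Algebra.IsAlgebraic ℤ B] :
    ∃ (K : Type) (_ : Field K) (_ : NumberField K) (m : ℤ), (m : B) ≠ 0 ∧
      Nonempty (Localization.Away (m : 𝓞 K) ≃+* Localization.Away (m : B)) := by
  have hN : NumberField (FractionRing B) := num_field B (FractionRing B)
  obtain ⟨m, hm, e⟩ := order_aux B (FractionRing B)
  exact ⟨FractionRing B, inferInstance, hN, m, Int.cast_ne_zero.2 hm, e⟩

end Pool.Agent.Q27.BG
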