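import Pool.Agent.Q54.CU.KU
import Pool.Agent.Z125.UN.Sym

/-!
# Finite generation of all `K'`-groups has the closure properties `Bnd`
-/

set_option autoImplicit false

namespace Pool.Agent.Q27.BG

open MvPolynomial CategoryTheory AlgebraicGeometry Pool.Agent.Y116.UV Pool.Agent.Z125.UN Q54.CU

/-- All groups `G n X` are finitely generated. -/
def AllFG {R : Type} [CommRing R] (G : ℕ → Sch R → Type) [∀ n X, AddCommGroup (G n X)]
    (X : Sch R) : Prop :=
  ∀ n, AddGroup.FG (G n X)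

variable {R : Type} [CommRing R] {G : ℕ → Sch R → Type} [∀ n X, AddCommGroup (G n X)]

theorem bnd_fg (hG : IsKTheory R G) : Bnd False (AllFG G) where
  iso hX e h n := by
    obtain ⟨e⟩ := hG.iso hX e n
    exact fg_of_equiv e (h n)
  total i j hX ht hZ hU n := by
    obtain ⟨⟨a, b, c⟩, h1, -, -⟩ := hG.localization i j hX ht
    exact fg_of_exact (h1 n) (hZ n) (hU n)
  opened i j hX ht hZ hX' n := by
    obtain ⟨⟨a, b, c⟩, -, ⟨h2, h4⟩, -⟩ := hG.localization i j hX ht
    cases n with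
    | zero => exact fg_of_surj _ h4 (hX' 0)
    | succ n => exact fg_of_exact (h2 n) (hX' (n + 1)) (hZ n)
  closed i j hX ht hX' hU n := by
    obtain ⟨⟨a, b, c⟩, -, -, h3⟩ := hG.localization i j hX ht
    exact fg_of_exact (h3 n) (hU (n + 1)) (hX' n)
  space M n := by
    obtain ⟨e⟩ := hG.bundle R (M + 1) (f1 R M) (aff R R) ⟨𝟙 _, inferInstance, range_id M⟩ n
    obtain ⟨e2⟩ := hG.iso (ft_aff False) ⟨(affIso (jouOne R M)).symm⟩ n
    exact fg_of_equiv e2 (fg_of_equiv e (hG.base n))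
  jouanolou A _ _ _ m f U j hj hr h n := by
    obtain ⟨e⟩ := hG.bundle A m f U ⟨j, hj, hr⟩ n
    exact fg_of_equiv e.symm (h n)
  torus A _ _ _ h n := by
    obtain ⟨s, r, hs⟩ := hG.torus A n
    exact fg_of_retract s r hs (h n)
  bundle A _ _ _ m f U j hj hr h n := by
    obtain ⟨e⟩ := hG.bundle A m f U ⟨j, hj, hr⟩ n
    exact fg_of_equiv e (h n)

end Pool.Agent.Q27.BG
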