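import Pool.Agent.Q54.ZE.Fib
import Pool.Agent.Q27.BG.Alg

/-!
# Rings generated by one element

A property of schemes of finite type over the integers with the closure properties `Bnd`, which is
true for the rings of integers of the number fields and for the finite fields, is true for all
closed subschemes of the affine line over the integers.
-/

set_option autoImplicit false

namespace Pool.Agent.Q27.BG

open MvPolynomial CategoryTheory AlgebraicGeometry NumberField
open Pool.Agent.Y116.UV Pool.Agent.Z125.UN Q54.ZE

/-- Algebras generated by one algebraic element. -/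
lemma alg_of_ker {R B : Type} [CommRing R] [IsDomain R] [CommRing B] [Algebra R B]
    (x : Fin 1 → B) (hx : Function.Surjective (aeval x : MvPolynomial (Fin 1) R → B))
    (g : MvPolynomial (Fin 1) R) (hg : g ≠ 0) (h : aeval x g = 0) : Algebra.IsAlgebraic R B := by
  have h1 : IsAlgebraic R (x 0) := by
    by_contra hcon
    have h2 : AlgebraicIndependent R x := (algebraicIndependent_singleton_iff 0).2 hcon
    exact hg (h2 (by rw [h, map_zero]))
  have h2 : (Algebra.adjoin R {x 0}).IsAlgebraic := by
    have : Nontrivial R := inferInstance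
    exact Algebra.isAlgebraic_adjoin_singleton_iff.2 h1
  have h3 : Algebra.adjoin R {x 0} = ⊤ := by
    have h4 : Set.range x = {x 0} := by
      ext y
      constructor
      · rintro ⟨i, rfl⟩
        rw [Subsingleton.elim i 0]
        rfl
      · intro hy
        exact ⟨0, (Set.mem_singleton_iff.1 hy).symm⟩
    rw [← h4, Algebra.adjoin_range_eq_range_aeval, AlgHom.range_eq_top]
    exact hx
  refine ⟨fun b => h2 b ?_⟩
  rw [h3]
  trivial

variable {P : Sch ℤ → Prop} (hP : Bnd False P)

include hP

/-- finite rings -/
lemma p_finite (hF : ∀ (k : Type) [Field k] [Finite k], P (aff ℤ k)) (A : Type) [CommRing A]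
    [Finite A] : P (aff ℤ A) := by
  have h1 : Module.Finite ℤ A := inferInstance
  refine noeth hP (fun B _ _ hB => p_empty hP B hB) fun p hp => ?_
  have h2 : Finite (A ⧸ p) := Finite.of_surjective _ Ideal.Quotient.mk_surjective
  have h3 : IsField (A ⧸ p) := Finite.isField_of_domain (A ⧸ p)
  let _ : Field (A ⧸ p) := h3.toField
  refine ⟨1, one_ne_zero, p_away_one hP (A ⧸ p) ?_⟩
  exact p_inst _ _ (hF (A ⧸ p))

/-- **Closed subschemes of the affine line over the integers.** -/
theorem one_var (hO : ∀ (K : Type) [Field K] [NumberField K], P (aff ℤ (𝓞 K)))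
    (hF : ∀ (k : Type) [Field k] [Finite k], P (aff ℤ k)) (I : Ideal (MvPolynomial (Fin 1) ℤ)) :
    P (aff ℤ (MvPolynomial (Fin 1) ℤ ⧸ I)) := by
  refine noeth hP (fun B _ _ hB => p_empty hP B hB) fun p hp => ?_
  let A := MvPolynomial (Fin 1) ℤ ⧸ I
  let B := A ⧸ p
  let φ : MvPolynomial (Fin 1) ℤ →+* B := (Ideal.Quotient.mk p).comp (Ideal.Quotient.mk I)
  have hφ : Function.Surjective φ :=
    Ideal.Quotient.mk_surjective.comp Ideal.Quotient.mk_surjective
  have hBft : @Algebra.FiniteType ℤ B _ _ (Ring.toIntAlgebra B) :=
    (Algebra.FiniteType.of_surjective (R := ℤ) (A := MvPolynomial (Fin 1) ℤ) φ.toIntAlgHom hφ)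
  by_cases hker : ∃ f, φ f = 0 ∧ f ≠ 0
  · obtain ⟨f, hf, hf0⟩ := hker
    obtain ⟨q, hq⟩ := CharP.exists B
    rcases CharP.char_is_prime_or_zero B q with h0 | rfl
    · have : Fact q.Prime := ⟨h0⟩
      refine ⟨1, one_ne_zero, p_away_one hP B ?_⟩
      by_cases hall : ∀ f, φ f = 0 → ∀ d, (q : ℤ) ∣ f.coeff d
      · exact p_poly_prime hP q (p_inst _ _ (hF (ZMod q))) φ hφ (CharP.cast_eq_zero B q) hall
      · push Not at hall
        obtain ⟨g, hg, d, hgd⟩ := hall
        let _ : Algebra (ZMod q) B := ZMod.algebra B q
        let x : Fin 1 → B := fun i => φ (X i)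
        have hx : ∀ f, aeval x (map (Int.castRingHom (ZMod q)) f) = φ f := by
          intro f
          have h1 : ((aeval x : MvPolynomial (Fin 1) (ZMod q) →ₐ[ZMod q] B) :
              MvPolynomial (Fin 1) (ZMod q) →+* B).comp (map (Int.castRingHom (ZMod q))) = φ := by
            apply MvPolynomial.ringHom_ext
            · intro a
              simp
            · intro i
              simp [x]
          exact congrArg (fun g : MvPolynomial (Fin 1) ℤ →+* B => g f) h1
        have hs : Function.Surjective (aeval x : MvPolynomial (Fin 1) (ZMod q) → B) := by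
          intro b
          obtain ⟨f, rfl⟩ := hφ b
          exact ⟨_, hx f⟩
        have h2 : map (Int.castRingHom (ZMod q)) g ≠ 0 := by
          intro h3
          have h4 := congrArg (MvPolynomial.coeff d) h3
          rw [coeff_map, coeff_zero] at h4
          exact hgd ((ZMod.intCast_zmod_eq_zero_iff_dvd _ _).1 h4)
        have h3 : Algebra.IsAlgebraic (ZMod q) B := alg_of_ker x hs _ h2 (by rw [hx, hg])
        have h4 : Algebra.FiniteType (ZMod q) B := Algebra.FiniteType.of_surjective (aeval x) hs
        have h5 : Algebra.IsIntegral (ZMod q) B := inferInstance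
        have h6 : Module.Finite (ZMod q) B := Algebra.IsIntegral.finite
        have h7 : Finite B := Module.finite_of_finite (ZMod q)
        exact p_inst _ _ (p_finite hP hF B)
    · have : CharZero B := CharP.charP_to_charZero B
      let x : Fin 1 → B := fun i => φ (X i)
      have hx : ∀ f : MvPolynomial (Fin 1) ℤ, @aeval ℤ B (Fin 1) _ _ (Ring.toIntAlgebra B) x f
          = φ f := by
        intro f
        let _ : Algebra ℤ B := Ring.toIntAlgebra B
        have h1 : ((aeval x : MvPolynomial (Fin 1) ℤ →ₐ[ℤ] B) :
            MvPolynomial (Fin 1) ℤ →+* B) = φ := by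
          apply MvPolynomial.ringHom_ext
          · intro a
            simp
          · intro i
            simp [x]
        exact congrArg (fun g : MvPolynomial (Fin 1) ℤ →+* B => g f) h1
      have h3 : @Algebra.IsAlgebraic ℤ B _ _ (Ring.toIntAlgebra B) := by
        let _ : Algebra ℤ B := Ring.toIntAlgebra B
        exact alg_of_ker x (fun b => by
          obtain ⟨f, rfl⟩ := hφ b
          exact ⟨f, hx f⟩) f hf0 (by rw [hx, hf])
      obtain ⟨K, _, _, m, hm, ⟨e⟩⟩ := exists_order B
      refine ⟨(m : B), hm, ?_⟩
      have h4 : Algebra.FiniteType ℤ (𝓞 K) := inferInstance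
      have h5 : Finite (𝓞 K ⧸ Ideal.span {(m : 𝓞 K)}) := by
        refine Ring.HasFiniteQuotients.finiteQuotient ?_
        rw [Ne, Ideal.span_singleton_eq_bot]
        intro h6
        apply hm
        rw [Int.cast_eq_zero] at h6 ⊢
        exact h6
      exact p_ringEquiv hP e (ring_open hP (m : 𝓞 K) (p_inst _ _ (p_finite hP hF _)) (hO K))
  · push Not at hker
    refine ⟨1, one_ne_zero, p_away_one hP B ?_⟩
    have hinj : Function.Injective φ := by
      rw [injective_iff_map_eq_zero]
      exact hker
    exact p_ringEquiv hP (RingEquiv.ofBijective φ ⟨hinj, hφ⟩) (hP.space 1)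

end Pool.Agent.Q27.BG
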