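import Pool.Agent.Z125.UN.Dim2

/-!
# Restriction of the base

A property of schemes of finite type over `R` with the closure properties `Bnd` gives such a
property of schemes of finite type over an `R`-algebra `S` of finite type.
-/

set_option autoImplicit false

namespace Pool.Agent.Q27.BG

open MvPolynomial CategoryTheory AlgebraicGeometry
open Pool.Agent.Y116.UV Pool.Agent.Z125.UN

section

variable (R S : Type) [CommRing R] [CommRing S] [Algebra R S]

/-- Schemes over `S`, as schemes over `R`. -/
noncomputable def res : Sch S ⥤ Sch R := Over.map (Spec.map (CommRingCat.ofHom (algebraMap R S)))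

lemma res_aff (A : Type) [CommRing A] [Algebra S A] [Algebra R A] [IsScalarTower R S A] :
    (res R S).obj (aff S A) = aff R A := by
  have h : Spec.map (CommRingCat.ofHom (algebraMap S A)) ≫
      Spec.map (CommRingCat.ofHom (algebraMap R S)) =
        Spec.map (CommRingCat.ofHom (algebraMap R A)) := by
    rw [← Spec.map_comp, ← CommRingCat.ofHom_comp, IsScalarTower.algebraMap_eq R S A]
  exact congrArg Over.mk h

/-- morphisms to affine schemes -/
noncomputable def resMap {A : Type} [CommRing A] [Algebra S A] [Algebra R A] [IsScalarTower R S A]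
    {U : Sch S} (j : U ⟶ aff S A) : (res R S).obj U ⟶ aff R A :=
  Over.homMk (U := (res R S).obj U) (V := aff R A) j.left (by
    have h : Spec.map (CommRingCat.ofHom (algebraMap S A)) ≫
        Spec.map (CommRingCat.ofHom (algebraMap R S)) =
          Spec.map (CommRingCat.ofHom (algebraMap R A)) := by
      rw [← Spec.map_comp, ← CommRingCat.ofHom_comp, IsScalarTower.algebraMap_eq R S A]
    change j.left ≫ Spec.map (CommRingCat.ofHom (algebraMap R A)) =
      U.hom ≫ Spec.map (CommRingCat.ofHom (algebraMap R S))
    rw [← h]
    have h2 : j.left ≫ (aff S A).hom = U.hom := Over.w j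
    have h3 := congrArg (fun g => g ≫ Spec.map (CommRingCat.ofHom (algebraMap R S))) h2
    exact (Category.assoc _ _ _).symm.trans h3)

variable {R S}

lemma res_ft [Algebra.FiniteType R S] {sep : Prop} {X : Sch S} (hX : FT sep X) :
    FT sep ((res R S).obj X) := by
  have h := ft_aff (R := R) (A := S) sep
  have h1 := h.locallyOfFiniteType
  have h2 := h.quasiCompact
  have h3 := hX.locallyOfFiniteType
  have h4 := hX.quasiCompact
  change LocallyOfFiniteType (Spec.map (CommRingCat.ofHom (algebraMap R S))) at h1
  change QuasiCompact (Spec.map (CommRingCat.ofHom (algebraMap R S))) at h2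
  refine ⟨?_, ?_, fun hs => ?_⟩
  · change LocallyOfFiniteType (X.hom ≫ Spec.map (CommRingCat.ofHom (algebraMap R S)))
    infer_instance
  · change QuasiCompact (X.hom ≫ Spec.map (CommRingCat.ofHom (algebraMap R S)))
    infer_instance
  · have h5 := hX.separated hs
    change IsSeparated (X.hom ≫ Spec.map (CommRingCat.ofHom (algebraMap R S)))
    infer_instance

lemma res_triple {Z X U : Sch S} {i : Z ⟶ X} {j : U ⟶ X} (h : IsTriple i j) :
    IsTriple ((res R S).map i) ((res R S).map j) :=
  ⟨h.closed, h.opened, h.compl⟩

/-- **Restriction of the base.** -/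
theorem bnd_res [Algebra.FiniteType R S] {sep : Prop} {P : Sch R → Prop} (hP : Bnd sep P)
    (hS : P (aff R S)) : Bnd sep fun X : Sch S => P ((res R S).obj X) where
  iso hX e h := hP.iso (res_ft hX) (e.map fun e => (res R S).mapIso e) h
  total i j hX ht hZ hU := hP.total _ _ (res_ft hX) (res_triple ht) hZ hU
  opened i j hX ht hZ hX' := hP.opened _ _ (res_ft hX) (res_triple ht) hZ hX'
  closed i j hX ht hX' hU := hP.closed _ _ (res_ft hX) (res_triple ht) hX' hU
  space n := by
    rw [res_aff]
    exact p_poly hP _ hS
  jouanolou A _ _ _ m f U j hj hr h := by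
    let _ : Algebra R A := ((algebraMap S A).comp (algebraMap R S)).toAlgebra
    have h1 : IsScalarTower R S A := IsScalarTower.of_algebraMap_eq' rfl
    have h2 : Algebra.FiniteType R A := Algebra.FiniteType.trans (S := S) inferInstance inferInstance
    rw [res_aff R S (Jou f)] at h
    exact hP.jouanolou A m f _ (resMap R S j) hj hr h
  torus A _ _ _ h := by
    let _ : Algebra R A := ((algebraMap S A).comp (algebraMap R S)).toAlgebra
    have h1 : IsScalarTower R S A := IsScalarTower.of_algebraMap_eq' rfl
    have h2 : Algebra.FiniteType R A := Algebra.FiniteType.trans (S := S) inferInstance inferInstance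
    rw [res_aff R S (LaurentPolynomial A)] at h
    rw [res_aff R S A]
    exact hP.torus A h
  bundle A _ _ _ m f U j hj hr h := by
    let _ : Algebra R A := ((algebraMap S A).comp (algebraMap R S)).toAlgebra
    have h1 : IsScalarTower R S A := IsScalarTower.of_algebraMap_eq' rfl
    have h2 : Algebra.FiniteType R A := Algebra.FiniteType.trans (S := S) inferInstance inferInstance
    rw [res_aff R S (Jou f)]
    exact hP.bundle A m f _ (resMap R S j) hj hr h

end

end Pool.Agent.Q27.BG
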