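import Pool.Agent.Q27.BG.Main
import Pool.Agent.Q27.BG.Res

/-!
# The dimension of the generic fibre

A domain of finite type over the integers of characteristic zero and of dimension at most `D + 1` has
a generic fibre of dimension at most `D`.
-/

set_option autoImplicit false

namespace Pool.Agent.Q27.BG

open MvPolynomial CategoryTheory AlgebraicGeometry TensorProduct
open Pool.Agent.Y116.UV Pool.Agent.Z125.UN Q54.CU Q54.ZE Pool.Agent.H920R2

/-- Localizations whose primes do not lie over maximal ideals. -/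
lemma dim_lt {B C : Type} [CommRing B] [CommRing C] (f : B →+* C)
    (hf : ∀ c : C, ∃ (u : C) (b : B), IsUnit u ∧ u * c = f b)
    (hmax : ∀ P : Ideal C, P.IsPrime → ¬ (P.comap f).IsMaximal) {D : ℕ}
    (hB : ringKrullDim B ≤ D + 1) : ringKrullDim C ≤ D := by
  refine iSup_le fun l => ?_
  let φ : PrimeSpectrum C → PrimeSpectrum B := PrimeSpectrum.comap f
  have hφ : StrictMono φ := by
    intro P Q hPQ
    refine lt_of_le_not_ge (Ideal.comap_mono hPQ.le) fun h => ?_
    have h1 : ¬ Q.asIdeal ≤ P.asIdeal := fun h => hPQ.not_ge h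
    rw [SetLike.not_le_iff_exists] at h1
    obtain ⟨c, hc, hc'⟩ := h1
    obtain ⟨u, b, hu, hb⟩ := hf c
    have h2 : b ∈ Q.asIdeal.comap f := by
      rw [Ideal.mem_comap, ← hb]
      exact Ideal.mul_mem_left _ _ hc
    have h3 : b ∈ P.asIdeal.comap f := h h2
    rw [Ideal.mem_comap, ← hb, Ideal.unit_mul_mem_iff_mem _ hu] at h3
    exact hc' h3
  let l' : LTSeries (PrimeSpectrum B) := l.map φ hφ
  obtain ⟨M, hM, hle⟩ := Ideal.exists_le_maximal l'.last.asIdeal l'.last.isPrime.ne_top
  have hlt : l'.last < ⟨M, hM.isPrime⟩ := by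
    refine lt_of_le_of_ne hle fun h => ?_
    have h1 : l'.last.asIdeal = M := congrArg PrimeSpectrum.asIdeal h
    have h2 : l'.last.asIdeal = l.last.asIdeal.comap f := by
      change (l.map φ hφ).last.asIdeal = _
      rw [LTSeries.last_map]
      rfl
    refine hmax l.last.asIdeal l.last.isPrime ?_
    rw [← h2, h1]
    exact hM
  have h1 := Order.LTSeries.length_le_krullDim (l'.snoc _ hlt)
  have h2 : (l'.snoc _ hlt).length = l.length + 1 := rfl
  rw [h2] at h1
  have h3 : ((l.length + 1 : ℕ) : WithBot ℕ∞) ≤ (D : WithBot ℕ∞) + 1 := h1.trans hB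
  have h4 : ((l.length + 1 : ℕ) : WithBot ℕ∞) ≤ ((D + 1 : ℕ) : WithBot ℕ∞) := by
    refine h3.trans (le_of_eq ?_)
    push_cast
    rfl
  have h5 : l.length + 1 ≤ D + 1 := by exact_mod_cast h4
  have h6 : l.length ≤ D := by omega
  exact_mod_cast h6

lemma jac_int : IsJacobsonRing ℤ := by
  rw [isJacobsonRing_iff_prime_eq]
  intro P hP
  by_cases h : P = ⊥
  · subst h
    rw [eq_bot_iff]
    intro x hx
    rw [Ideal.mem_jacobson_bot] at hx
    have h1 := hx x
    rw [Int.isUnit_iff] at h1
    rw [Ideal.mem_bot]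
    rcases h1 with h1 | h1
    · have : x * x = 0 := by linarith
      exact mul_self_eq_zero.1 this
    · exfalso
      nlinarith [mul_self_nonneg x]
  · have : P.IsMaximal := IsPrime.to_maximal_ideal h
    exact Ideal.jacobson_eq_self_of_isMaximal

/-- A field of characteristic zero is not finitely generated as a ring. -/
lemma not_isField (B : Type) [CommRing B] [Algebra.FiniteType ℤ B]
    (h : ∀ n : ℤ, (n : B) = 0 → n = 0) : ¬ IsField B := by
  intro hB
  let _ : Field B := hB.toField
  have hJ := jac_int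
  have h1 : Module.Finite ℤ B := finite_of_finite_type_of_isJacobsonRing ℤ B
  have h2 : Function.Injective (algebraMap ℤ B) := by
    rw [injective_iff_map_eq_zero]
    intro n hn
    refine h n ?_
    rwa [eq_intCast] at hn
  have h3 : IsField ℤ := isField_of_isIntegral_of_isField h2 hB
  exact Int.not_isField h3

/-- The dimension of the generic fibre. -/
theorem dim_generic (B : Type) [CommRing B] [Algebra.FiniteType ℤ B] {D : ℕ}
    (hB : ringKrullDim B ≤ D + 1) : ringKrullDim (B ⊗[ℤ] ℚ) ≤ D := by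
  let f : B →+* B ⊗[ℤ] ℚ := (Algebra.TensorProduct.includeLeft : B →ₐ[ℤ] B ⊗[ℤ] ℚ).toRingHom
  let g : ℚ →+* B ⊗[ℤ] ℚ := (Algebra.TensorProduct.includeRight : ℚ →ₐ[ℤ] B ⊗[ℤ] ℚ).toRingHom
  have hu : ∀ n : ℤ, n ≠ 0 → IsUnit (n : B ⊗[ℤ] ℚ) := by
    intro n hn
    have h1 : IsUnit (n : ℚ) := (Int.cast_ne_zero.2 hn).isUnit
    have h2 := h1.map g
    rwa [map_intCast] at h2
  refine dim_lt f (fun c => ?_) (fun P hP hM => ?_) hB
  · have key : ∃ (n : ℤ) (b : B), n ≠ 0 ∧ (n : B ⊗[ℤ] ℚ) * c = f b := by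
      induction c using TensorProduct.induction_on with
      | zero => exact ⟨1, 0, one_ne_zero, by simp⟩
      | add x y hx hy =>
        obtain ⟨n, b, hn, hx⟩ := hx
        obtain ⟨m, c, hm, hy⟩ := hy
        refine ⟨n * m, (m : B) * b + (n : B) * c, mul_ne_zero hn hm, ?_⟩
        rw [map_add, map_mul, map_mul, map_intCast, map_intCast, ← hx, ← hy]
        push_cast
        ring
      | tmul b q =>
        refine ⟨q.den, (q.num : B) * b, by exact_mod_cast q.den_nz, ?_⟩
        have h1 : b ⊗ₜ[ℤ] q = f b * g q := by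
          change b ⊗ₜ[ℤ] q = (b ⊗ₜ[ℤ] (1 : ℚ)) * ((1 : B) ⊗ₜ[ℤ] q)
          rw [Algebra.TensorProduct.tmul_mul_tmul, mul_one, one_mul]
        have h2 : ((q.den : ℤ) : B ⊗[ℤ] ℚ) * g q = ((q.num : ℤ) : B ⊗[ℤ] ℚ) := by
          rw [← map_intCast g, ← map_intCast g, ← map_mul]
          congr 1
          rw [mul_comm]
          exact_mod_cast q.mul_den_eq_num
        rw [h1, map_mul, map_intCast, ← h2]
        ring
    obtain ⟨n, b, hn, h⟩ := key
    exact ⟨n, b, hu n hn, h⟩
  · have h1 : IsField (B ⧸ P.comap f) :=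
      (Ideal.Quotient.maximal_ideal_iff_isField_quotient _).1 hM
    have h2 : @Algebra.FiniteType ℤ (B ⧸ P.comap f) _ _ (Ring.toIntAlgebra _) :=
      Algebra.FiniteType.of_surjective (Ideal.Quotient.mk (P.comap f)).toIntAlgHom
        Ideal.Quotient.mk_surjective
    refine not_isField _ (fun n hn => ?_) h1
    by_contra h0
    have h3 : ((n : B) : B) ∈ P.comap f := by
      rw [← Ideal.Quotient.eq_zero_iff_mem, map_intCast]
      exact hn
    rw [Ideal.mem_comap, map_intCast] at h3
    exact hP.ne_top (Ideal.eq_top_of_isUnit_mem _ h3 (hu n h0))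

end Pool.Agent.Q27.BG
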