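import Pool.Agent.Q27.BG.DimQ

/-!
# Regular schemes of bounded dimension
-/

set_option autoImplicit false

namespace Pool.Agent.Q27.BG

open MvPolynomial CategoryTheory AlgebraicGeometry TensorProduct NumberField
open Pool.Agent.Y116.UV Pool.Agent.Z125.UN Q54.CU Q54.ZE Pool.Agent.H920R2

/-- Coordinates on a domain of characteristic zero. -/
lemma coords_zero (B : Type) [CommRing B] [IsDomain B] [CharZero B] [Algebra.FiniteType ℤ B]
    {n : ℕ} (h : ringKrullDim (B ⊗[ℤ] ℚ) ≤ n) : ∃ x : Fin (n + 1) → FractionRing B,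
      ∀ y : FractionRing B, ∃ p q : MvPolynomial (Fin (n + 1)) ℤ,
        aeval x q ≠ 0 ∧ aeval x q * y = aeval x p := by
  have : CharZero (FractionRing B) := inferInstance
  obtain ⟨x, hx⟩ := gens_prime ℚ B n h
  refine ⟨x, fun y => ?_⟩
  obtain ⟨P, Q, h1, h2⟩ := quot_int (k := ℚ) frac_rat x hx y
  exact ⟨P, Q, by rwa [aeval_int_eq _ (Ring.toIntAlgebra _)],
      by rwa [aeval_int_eq _ (Ring.toIntAlgebra _), aeval_int_eq _ (Ring.toIntAlgebra _) x P]⟩

lemma dim_int : ringKrullDim ℤ ≤ 1 := by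
  rw [← Nat.cast_one, ← Ring.krullDimLE_iff]
  infer_instance

/-- Dimensions of closed subschemes of affine spaces over the integers. -/
lemma dim_quot_int {N : ℕ} (I : Ideal (MvPolynomial (Fin N) ℤ)) (hI : I ≠ ⊥) :
    ringKrullDim (MvPolynomial (Fin N) ℤ ⧸ I) ≤ N := by
  obtain ⟨f, hf, hf0⟩ := Submodule.exists_mem_ne_zero_of_ne_bot hI
  have h1 : ringKrullDim (MvPolynomial (Fin N) ℤ ⧸ Ideal.span {f}) + 1 ≤
      ringKrullDim (MvPolynomial (Fin N) ℤ) :=
    ringKrullDim_quotient_succ_le_of_nonZeroDivisor (mem_nonZeroDivisors_of_ne_zero hf0)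
  rw [MvPolynomial.ringKrullDim_of_isNoetherianRing,
    Nat.card_eq_fintype_card, Fintype.card_fin] at h1
  have h0 : ringKrullDim ℤ + N ≤ (1 : WithBot ℕ∞) + N := by
    gcongr
    exact dim_int
  have h1' := h1.trans h0
  have h2 : ringKrullDim (MvPolynomial (Fin N) ℤ ⧸ I) ≤
      ringKrullDim (MvPolynomial (Fin N) ℤ ⧸ Ideal.span {f}) := by
    have hle : Ideal.span {f} ≤ I := by
      rw [Ideal.span_le, Set.singleton_subset_iff]
      exact hf
    exact ringKrullDim_le_of_surjective (Ideal.Quotient.factor hle)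
      (Ideal.Quotient.factor_surjective hle)
  refine h2.trans ?_
  have h3 : (1 : WithBot ℕ∞) + N = ((N + 1 : ℕ) : WithBot ℕ∞) := by
    push_cast
    rw [add_comm]
  rw [h3, ENat.WithBot.add_one_le_natCast_iff] at h1'
  have h4 : ((N + 1 : ℕ) : WithBot ℕ∞) = (N : WithBot ℕ∞) + 1 := by push_cast; rfl
  rw [h4] at h1'
  exact ENat.WithBot.lt_add_one_iff.mp h1'

lemma topDim_int (A : Type) [CommRing A] [Algebra ℤ A] :
    topologicalKrullDim (aff ℤ A).left = ringKrullDim A :=
  PrimeSpectrum.topologicalKrullDim_eq_ringKrullDim A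

section

variable {P : Sch ℤ → Prop} (hP : Bnd False P)

include hP

/-- Open parts of domains of characteristic zero. -/
lemma domain_zero {n : ℕ} (h : ∀ I : Ideal (MvPolynomial (Fin (n + 1)) ℤ),
    P (aff ℤ (MvPolynomial (Fin (n + 1)) ℤ ⧸ I))) (B : Type) [CommRing B] [IsDomain B] [CharZero B]
    [Algebra.FiniteType ℤ B] (hd : ringKrullDim (B ⊗[ℤ] ℚ) ≤ n) :
    ∃ w : B, w ≠ 0 ∧ P (aff ℤ (Localization.Away w)) := by
  obtain ⟨x, hx⟩ := coords_zero B hd
  obtain ⟨w, hw, φ, g, h1, h2⟩ := exists_emb' x (R := ℤ) (B := B) (fun y => by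
    obtain ⟨P, Q, h3, h4⟩ := hx y
    refine ⟨P, Q, ?_, ?_⟩
    · rwa [aeval_int_eq _ (Ring.toIntAlgebra _)] at h3 ⊢
    · rwa [aeval_int_eq _ (Ring.toIntAlgebra _), aeval_int_eq _ (Ring.toIntAlgebra _) x P] at h4 ⊢)
  exact ⟨w, hw, p_emb hP h φ g h1 h2⟩

/-- From affine schemes to all schemes of dimension at most `D`. -/
lemma dim_of_affine {D : ℕ} (h : ∀ (A : Type) [CommRing A] [Algebra ℤ A]
    [Algebra.FiniteType ℤ A], ringKrullDim A ≤ D → P (aff ℤ A)) (X : Sch ℤ) (hX : FT False X)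
    (hn : topologicalKrullDim X.left ≤ D) : P X := by
  refine of_affine' (P := fun X => topologicalKrullDim X.left ≤ D → P X) (sep := False) ?_ ?_ ?_ X
    hX hn
  · intro X Y hX e hPX hY
    refine hP.iso hX e (hPX ?_)
    obtain ⟨e⟩ := e
    let f := (Over.forget _).mapIso e
    exact (Topology.IsInducing.topologicalKrullDim_le
      (Scheme.homeoOfIso f).isInducing).trans hY
  · intro Z X U i j hX ht hZ hU hn
    refine hP.total i j hX ht (hZ ?_) (hU ?_)
    · have h1 := (have := ht.closed; i.left.isClosedEmbedding.isInducing)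
      exact h1.topologicalKrullDim_le.trans hn
    · have h1 := (have := ht.opened; j.left.isOpenEmbedding.isInducing)
      exact h1.topologicalKrullDim_le.trans hn
  · intro A _ _ _ hA
    rw [topDim_int] at hA
    exact h A hA

/-- From regular schemes to affine schemes of dimension at most `D`. -/
lemma dim_regular {D : ℕ} (h : ∀ X : Sch ℤ, FT False X → IsRegularSch X.left →
    topologicalKrullDim X.left ≤ D → P X) (A : Type) [CommRing A] [inst : Algebra ℤ A]
    [Algebra.FiniteType ℤ A] (hA : ringKrullDim A ≤ D) : P (aff ℤ A) := by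
  obtain rfl : inst = Ring.toIntAlgebra A := Subsingleton.elim _ _
  refine noeth hP (fun B _ _ hB => p_empty hP B hB) fun p hp => ?_
  have hBft : @Algebra.FiniteType ℤ (A ⧸ p) _ _ (Ring.toIntAlgebra (A ⧸ p)) :=
    Algebra.FiniteType.of_surjective (Ideal.Quotient.mk p).toIntAlgHom Ideal.Quotient.mk_surjective
  obtain ⟨w, hw, h1⟩ := exists_regular (A ⧸ p)
  refine ⟨w, hw, h _ (ft_aff False) (reg_aff h1) ?_⟩
  rw [topDim_int]
  exact (dim_away w).trans ((ringKrullDim_quotient_le p).trans hA)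

/-- Affine schemes over a prime field. -/
lemma prime_field {D : ℕ} (p : ℕ) [Fact p.Prime] (hF : P (aff ℤ (ZMod p)))
    (h : ∀ (a b : ℕ) (H : Finset (Fin a × Fin b × Fin (D + 2))), P (aff ℤ (Trip (ZMod p) H)))
    (B : Type) [CommRing B] [inst : Algebra ℤ B] [Algebra.FiniteType ℤ B] [Algebra (ZMod p) B]
    (hB : ringKrullDim B ≤ D) : P (aff ℤ B) := by
  obtain rfl : inst = Ring.toIntAlgebra B := Subsingleton.elim _ _
  have hft : Algebra.FiniteType ℤ (ZMod p) :=
    Algebra.FiniteType.of_surjective (Algebra.ofId ℤ (ZMod p)) (ZMod.intCast_surjective)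
  have hQ := bnd_res (S := ZMod p) hP hF
  have hs : IsScalarTower ℤ (ZMod p) B := IsScalarTower.of_algebraMap_eq' (RingHom.ext_int _ _)
  have h1 : Algebra.FiniteType (ZMod p) B :=
    Algebra.FiniteType.of_restrictScalars_finiteType ℤ (ZMod p) B
  have h2 : ∀ (a b : ℕ) (T : Fin a → Fin b → Fin (D + 2) → ZMod p),
      P ((res ℤ (ZMod p)).obj (hypS T)) := zero_one hQ ZMod.intCast_surjective (fun a b H => by
    have h3 := h a b H
    rw [← res_aff ℤ (ZMod p)] at h3
    exact h3)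
  have h3 := (graded hQ (D + 1)).2 h2
  have h4 := closed_to_dim hQ h3 B hB
  rwa [res_aff ℤ (ZMod p)] at h4

/-- From trilinear forms to affine schemes of dimension at most `D`. -/
lemma forms_to_affine {D : ℕ}
    (h1 : ∀ (a b : ℕ) (H : Finset (Fin a × Fin b × Fin (D + 1))), P (tripS ℤ H))
    (h2 : ∀ (p : ℕ) [Fact p.Prime] (a b : ℕ) (H : Finset (Fin a × Fin b × Fin (D + 2))),
      P (aff ℤ (Trip (ZMod p) H))) (A : Type) [CommRing A] [inst : Algebra ℤ A]
    [Algebra.FiniteType ℤ A] (hA : ringKrullDim A ≤ D) : P (aff ℤ A) := by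
  have hI := (graded hP D).2 fun a b T => zero_one hP (fun x => ⟨x, Int.cast_id⟩) h1 a b T
  obtain rfl : inst = Ring.toIntAlgebra A := Subsingleton.elim _ _
  refine noeth hP (fun B _ _ hB => p_empty hP B hB) fun p hp => ?_
  have hBft : @Algebra.FiniteType ℤ (A ⧸ p) _ _ (Ring.toIntAlgebra (A ⧸ p)) :=
    Algebra.FiniteType.of_surjective (Ideal.Quotient.mk p).toIntAlgHom Ideal.Quotient.mk_surjective
  have hBd : ringKrullDim (A ⧸ p) ≤ D := (ringKrullDim_quotient_le p).trans hA
  obtain ⟨q, hq⟩ := CharP.exists (A ⧸ p)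
  rcases CharP.char_is_prime_or_zero (A ⧸ p) q with h0 | rfl
  · have : Fact q.Prime := ⟨h0⟩
    let _ : Algebra (ZMod q) (A ⧸ p) := ZMod.algebra _ q
    have hF : P (aff ℤ (ZMod q)) := of_surj hP hI
      (aeval (fun _ => 0) : MvPolynomial (Fin D) ℤ →ₐ[ℤ] ZMod q) (fun x => by
        obtain ⟨n, rfl⟩ := ZMod.intCast_surjective x
        exact ⟨C n, by rw [algHom_C, eq_intCast]⟩)
    have h3 := prime_field hP q hF (h2 q) (A ⧸ p) hBd
    exact ⟨1, one_ne_zero, p_away_one hP (A ⧸ p) (p_inst _ _ h3)⟩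
  · have : CharZero (A ⧸ p) := CharP.charP_to_charZero _
    rcases D with _ | n
    · exfalso
      have h3 : ringKrullDim (A ⧸ p) ≤ (0 : ℕ) := hBd
      rw [← Ring.krullDimLE_iff] at h3
      exact not_isField (A ⧸ p) (fun n hn => Int.cast_eq_zero.1 hn)
        Ring.KrullDimLE.isField_of_isDomain
    · obtain ⟨w, hw, h3⟩ := domain_zero hP hI (A ⧸ p) (dim_generic (A ⧸ p) (by
        refine hBd.trans (le_of_eq ?_)
        push_cast
        rfl))
      exact ⟨w, hw, p_inst _ _ h3⟩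

/-- From affine schemes of dimension at most `D` to trilinear forms over the integers. -/
lemma affine_to_forms {D : ℕ} (h : ∀ (A : Type) [CommRing A] [Algebra ℤ A]
      [Algebra.FiniteType ℤ A], ringKrullDim A ≤ D → P (aff ℤ A)) {a b c : ℕ}
    (T : Fin a → Fin b → Fin c → ℤ) (hT : a ≤ D + 1 ∨ b ≤ D + 1 ∨ c ≤ D + 1) : P (hypS T) := by
  refine of_block hP (fun a b c' hc T => to_tri hP (N := D) (fun I => ?_) a b c' hc T) T hT
  by_cases hI : I = ⊥
  · subst hI
    exact iso_alg hP.toUni (AlgEquiv.quotientBot ℤ _).symm (hP.space D)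
  · exact h _ (dim_quot_int I hI)

/-- From affine schemes of dimension at most `D` to trilinear forms over finite fields. -/
lemma affine_to_forms_field {D : ℕ} (k : Type) [Field k] [Finite k] (h : ∀ (A : Type) [CommRing A]
      [Algebra k A] [Algebra.FiniteType k A], ringKrullDim A ≤ D → P (aff ℤ A)) {a b c : ℕ}
    (T : Fin a → Fin b → Fin c → k) (hT : a ≤ D + 2 ∨ b ≤ D + 2 ∨ c ≤ D + 2) :
    P (aff ℤ (Hyp T)) := by
  have hmf : Module.Finite ℤ k := inferInstance
  have hft : Algebra.FiniteType ℤ k := inferInstance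
  have hF : P (aff ℤ k) := h k (by
    rw [ringKrullDim_eq_zero_of_field]
    exact_mod_cast Nat.zero_le D)
  have hQ := bnd_res (S := k) hP hF
  have h1 : P ((res ℤ k).obj (hypS T)) := by
    refine of_block hQ (fun a b c' hc T => to_tri hQ (N := D + 1)
      (dim_to_closed hQ (fun A _ _ _ hA => ?_)) a b c' hc T) T hT
    have hs : IsScalarTower ℤ k A := IsScalarTower.of_algebraMap_eq' (RingHom.ext_int _ _)
    rw [res_aff]
    exact h A hA
  rw [hypS, res_aff] at h1
  exact h1

end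

end Pool.Agent.Q27.BG
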