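import Pool.Agent.Q27.BG.Dm
import Pool.Agent.Q27.BG.Bnd

/-!
# Regular schemes of dimension at most `D` and trilinear forms
-/

set_option autoImplicit false

namespace Pool.Agent.Q27.BG

open MvPolynomial CategoryTheory AlgebraicGeometry TensorProduct NumberField
open Pool.Agent.Y116.UV Pool.Agent.Z125.UN Q54.CU Q54.ZE Pool.Agent.H920R2

variable {P : Sch ℤ → Prop} (hP : Bnd False P)

include hP

/-- **Schemes of dimension at most `D` and trilinear forms.** -/
theorem dim_main (D : ℕ) : List.TFAE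
    [∀ X : Sch ℤ, FT False X → IsRegularSch X.left → topologicalKrullDim X.left ≤ D → P X,
      ∀ X : Sch ℤ, FT False X → topologicalKrullDim X.left ≤ D → P X,
      (∀ (a b : ℕ) (H : Finset (Fin a × Fin b × Fin (D + 1))), P (tripS ℤ H)) ∧
        ∀ (p : ℕ) [Fact p.Prime] (a b : ℕ) (H : Finset (Fin a × Fin b × Fin (D + 2))),
          P (aff ℤ (Trip (ZMod p) H)),
      (∀ (a b c : ℕ) (T : Fin a → Fin b → Fin c → ℤ), a ≤ D + 1 ∨ b ≤ D + 1 ∨ c ≤ D + 1 →
          P (hypS T)) ∧
        ∀ (k : Type) [Field k] [Finite k] (a b c : ℕ) (T : Fin a → Fin b → Fin c → k),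
          a ≤ D + 2 ∨ b ≤ D + 2 ∨ c ≤ D + 2 → P (aff ℤ (Hyp T))] := by
  tfae_have 1 → 2 := fun h => dim_of_affine hP (fun A _ _ _ hA => dim_regular hP h A hA)
  tfae_have 2 → 1 := fun h X hX _ hn => h X hX hn
  tfae_have 2 → 4 := by
    intro h
    have h1 : ∀ (A : Type) [CommRing A] [Algebra ℤ A] [Algebra.FiniteType ℤ A],
        ringKrullDim A ≤ D → P (aff ℤ A) := by
      intro A _ _ _ hA
      refine h _ (ft_aff False) ?_
      rw [topDim_int]
      exact hA
    refine ⟨fun a b c T hT => affine_to_forms hP h1 T hT, fun k _ _ a b c T hT => ?_⟩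
    refine affine_to_forms_field hP k (fun A _ _ _ hA => ?_) T hT
    have hmf : Module.Finite ℤ k := inferInstance
    have hs : IsScalarTower ℤ k A := IsScalarTower.of_algebraMap_eq' (RingHom.ext_int _ _)
    have hft : Algebra.FiniteType ℤ A := Algebra.FiniteType.trans (S := k) inferInstance inferInstance
    exact h1 A hA
  tfae_have 4 → 3 := by
    rintro ⟨h1, h2⟩
    refine ⟨fun a b H => ?_, fun p _ a b H => ?_⟩
    · have h3 := h1 a b (D + 1) (fun i j k => if (i, j, k) ∈ H then (1 : ℤ) else 0)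
        (Or.inr (Or.inr le_rfl))
      unfold hypS Hyp at h3
      rw [tri_ind] at h3
      exact h3
    · have h3 := h2 (ZMod p) a b (D + 2) (fun i j k => if (i, j, k) ∈ H then (1 : ZMod p) else 0)
        (Or.inr (Or.inr le_rfl))
      unfold Hyp at h3
      rw [tri_ind] at h3
      exact h3
  tfae_have 3 → 2 := fun h => dim_of_affine hP (fun A _ _ _ hA =>
    forms_to_affine hP h.1 (fun p _ => h.2 p) A hA)
  tfae_finish

/-- **Schemes of dimension at most one.** -/
theorem dim_one (hO : ∀ (K : Type) [Field K] [NumberField K], P (aff ℤ (𝓞 K)))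
    (hF : ∀ (k : Type) [Field k] [Finite k], P (aff ℤ k))
    (hC : ∀ (p : ℕ) [Fact p.Prime] (A : Type) [CommRing A] [Algebra (ZMod p) A]
      [Algebra.Smooth (ZMod p) A], ringKrullDim A ≤ 1 → P (aff ℤ A)) (A : Type) [CommRing A]
    [inst : Algebra ℤ A] [Algebra.FiniteType ℤ A] (hA : ringKrullDim A ≤ (1 : ℕ)) :
    P (aff ℤ A) := by
  obtain rfl : inst = Ring.toIntAlgebra A := Subsingleton.elim _ _
  refine noeth hP (fun B _ _ hB => p_empty hP B hB) fun p hp => ?_
  have hBft : @Algebra.FiniteType ℤ (A ⧸ p) _ _ (Ring.toIntAlgebra (A ⧸ p)) :=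
    Algebra.FiniteType.of_surjective (Ideal.Quotient.mk p).toIntAlgHom Ideal.Quotient.mk_surjective
  have hBd : ringKrullDim (A ⧸ p) ≤ (1 : ℕ) := (ringKrullDim_quotient_le p).trans hA
  obtain ⟨q, hq⟩ := CharP.exists (A ⧸ p)
  rcases CharP.char_is_prime_or_zero (A ⧸ p) q with h0 | rfl
  · have : Fact q.Prime := ⟨h0⟩
    let _ : Algebra (ZMod q) (A ⧸ p) := ZMod.algebra _ q
    have h1 : Algebra.FiniteType (ZMod q) (A ⧸ p) := by
      have : IsScalarTower ℤ (ZMod q) (A ⧸ p) :=
        IsScalarTower.of_algebraMap_eq' (RingHom.ext_int _ _)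
      exact Algebra.FiniteType.of_restrictScalars_finiteType ℤ (ZMod q) (A ⧸ p)
    obtain ⟨w, hw, hs⟩ := exists_smooth (k := ZMod q) (A ⧸ p)
    refine ⟨w, hw, p_inst _ _ (hC q (Localization.Away w) ?_)⟩
    exact (dim_away w).trans (by exact_mod_cast hBd)
  · have : CharZero (A ⧸ p) := CharP.charP_to_charZero _
    obtain ⟨w, hw, h3⟩ := domain_zero hP (n := 0) (one_var hP hO hF) (A ⧸ p)
      (dim_generic (A ⧸ p) (by
        refine hBd.trans (le_of_eq ?_)
        simp))
    exact ⟨w, hw, p_inst _ _ h3⟩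

end Pool.Agent.Q27.BG
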