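import Pool.Agent.Z125.UN.Sym

/-!
# Trilinear forms with the coefficients `0` and `1`

The number of the variables of the third block is kept: a new variable `y` with
`y = - ∑ m_j y_j` is introduced by the bilinear equations `z_k (y + ∑ m_j y_j) = 0`.
-/

set_option autoImplicit false

namespace Pool.Agent.Q27.BG

open MvPolynomial CategoryTheory AlgebraicGeometry Pool.Agent.Y116.UV Pool.Agent.Z125.UN

section step

variable {R : Type} [CommRing R] {α β γ : Type} [Fintype β] [Fintype γ] [DecidableEq γ]

/-- The system with one more variable `y` and the equations `z_k (y + ∑ m_j y_j) = 0`. -/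
def ext (T : α → β → γ → R) (m : β → R) (t : α → γ → R) : α ⊕ γ → Option β → γ → R :=
  Sum.elim (fun i j k => j.elim (t i k) fun j => T i j k + m j * t i k)
    (fun k' j k => if k = k' then j.elim 1 m else 0)

variable (T : α → β → γ → R) (m : β → R) (t : α → γ → R)

/-- the linear form of the new variable -/
noncomputable def lf : MvPolynomial (Option β ⊕ γ) R :=
  X (Sum.inl none) + ∑ j, C (m j) * X (Sum.inl (some j))

variable {m} in
omit [Fintype γ] [DecidableEq γ] in
lemma aeval_lf {A : Type} [CommRing A] [Algebra R A] (v : Option β ⊕ γ → A) :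
    aeval v (lf (γ := γ) m) = v (Sum.inl none) + ∑ j, algebraMap R A (m j) * v (Sum.inl (some j)) := by
  rw [lf, map_add, aeval_X, map_sum]
  congr 1
  apply Finset.sum_congr rfl
  intro j _
  rw [map_mul, aeval_X, algHom_C]

lemma aeval_inl {A : Type} [CommRing A] [Algebra R A] (v : Option β ⊕ γ → A) (i : α) :
    aeval v (bl (ext T m t) (Sum.inl i)) =
      ∑ j, (∑ k, algebraMap R A (T i j k) * v (Sum.inr k)) * v (Sum.inl (some j)) +
        (∑ k, algebraMap R A (t i k) * v (Sum.inr k)) * aeval v (lf (γ := γ) m) := by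
  rw [aeval_bl, aeval_lf, Fintype.sum_option, mul_add, ← add_assoc, add_comm (∑ j, _) _, add_assoc]
  congr 1
  rw [Finset.mul_sum, ← Finset.sum_add_distrib]
  apply Finset.sum_congr rfl
  intro j _
  rw [← mul_assoc, ← add_mul]
  congr 1
  rw [Finset.sum_mul, ← Finset.sum_add_distrib]
  apply Finset.sum_congr rfl
  intro k _
  change algebraMap R A (T i j k + m j * t i k) * _ = _
  rw [map_add, map_mul]
  ring

lemma aeval_inr {A : Type} [CommRing A] [Algebra R A] (v : Option β ⊕ γ → A) (k : γ) :
    aeval v (bl (ext T m t) (Sum.inr k)) = v (Sum.inr k) * aeval v (lf (γ := γ) m) := by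
  rw [aeval_bl, aeval_lf, Fintype.sum_option, mul_add, Finset.mul_sum]
  have h1 : ∀ (c : R), ∑ k', algebraMap R A (if k' = k then c else 0) * v (Sum.inr k') =
      algebraMap R A c * v (Sum.inr k) := by
    intro c
    rw [Finset.sum_eq_single k]
    · rw [if_pos rfl]
    · intro k' _ hk'
      rw [if_neg hk', map_zero, zero_mul]
    · intro h
      exact absurd (Finset.mem_univ k) h
  congr 1
  · refine (congrArg (· * v (Sum.inl none)) (h1 1)).trans ?_
    rw [map_one, one_mul]
  · apply Finset.sum_congr rfl
    intro j _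
    refine (congrArg (· * v (Sum.inl (some j))) (h1 (m j))).trans ?_
    ring

/-- elimination of the new variable -/
noncomputable def elimE :
    Pc (adj (bl (ext T m t)) (lf (γ := γ) m)) 1 ≃ₐ[R] Pc (bl T) 1 :=
  have hlf : pv (adj (bl (ext T m t)) (lf (γ := γ) m)) 1 (Sum.inl none) +
      ∑ j, algebraMap R _ (m j) * pv (adj (bl (ext T m t)) (lf (γ := γ) m)) 1
        (Sum.inl (some j)) = 0 := by
    rw [← aeval_lf, pc_aeval]
    exact pc_rel (adj (bl (ext T m t)) (lf (γ := γ) m)) 1 none
  pcEquiv
    (Sum.elim (fun j : Option β => j.elim (-∑ j, algebraMap R _ (m j) * pv (bl T) 1 (Sum.inl j))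
      fun j => pv (bl T) 1 (Sum.inl j)) fun k => pv (bl T) 1 (Sum.inr k))
    (by
      have h0 : aeval (Sum.elim (fun j : Option β => j.elim
          (-∑ j, algebraMap R _ (m j) * pv (bl T) 1 (Sum.inl j))
          fun j => pv (bl T) 1 (Sum.inl j)) fun k => pv (bl T) 1 (Sum.inr k))
          (lf (γ := γ) m) = 0 := by
        rw [aeval_lf]
        exact neg_add_cancel _
      rintro (_ | i | k)
      · exact h0
      · change aeval _ (bl (ext T m t) (Sum.inl i)) = 0
        rw [aeval_inl, h0, mul_zero, add_zero]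
        have h := pc_rel (bl T) 1 i
        rw [← pc_aeval, aeval_bl] at h
        exact h
      · change aeval _ (bl (ext T m t) (Sum.inr k)) = 0
        rw [aeval_inr, h0, mul_zero])
    (by rw [map_one]; exact isUnit_one)
    (Sum.elim (fun j => pv _ _ (Sum.inl (some j))) fun k => pv _ _ (Sum.inr k))
    (by
      intro i
      rw [aeval_bl]
      have h := pc_rel (adj (bl (ext T m t)) (lf (γ := γ) m)) 1 (some (Sum.inl i))
      change pc _ _ (bl (ext T m t) (Sum.inl i)) = 0 at h
      rw [← pc_aeval, aeval_inl, aeval_lf, hlf, mul_zero, add_zero] at h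
      exact h)
    (by rw [map_one]; exact isUnit_one)
    (by
      rintro ((_ | j) | k)
      · change pcLift _ _ _ _ _ (-∑ j, algebraMap R _ (m j) * pv (bl T) 1 (Sum.inl j)) = _
        rw [map_neg, map_sum]
        simp only [map_mul, AlgHom.commutes, pcLift_pv, Sum.elim_inl]
        linear_combination -hlf
      · exact pcLift_pv _ _ _ _ _ _
      · exact pcLift_pv _ _ _ _ _ _)
    (by
      rintro (j | k)
      · exact pcLift_pv _ _ _ _ _ _
      · exact pcLift_pv _ _ _ _ _ _)

/-- the equations `z_k = 0` -/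
noncomputable def zr (R β γ : Type) [CommRing R] (k : γ) : MvPolynomial (Option β ⊕ γ) R :=
  X (Sum.inr k)

/-- the open part where the linear form does not vanish -/
noncomputable def openE : Pc (zr R β γ) (1 * lf (γ := γ) m) ≃ₐ[R]
    Pc (bl (ext T m t)) (1 * lf (γ := γ) m) :=
  pcSame
    (by
      intro k
      have h1 := pc_rel (bl (ext T m t)) (1 * lf (γ := γ) m) (Sum.inr k)
      have h2 := pc_unit_right (bl (ext T m t)) 1 (lf (γ := γ) m)
      rw [← pc_aeval, aeval_inr, pc_aeval] at h1
      exact (h2.mul_left_eq_zero).1 h1)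
    (pc_unit _ _)
    (by
      have h0 : ∀ k, pv (zr R β γ) (1 * lf (γ := γ) m) (Sum.inr k) = 0 := fun k =>
        pc_rel (zr R β γ) (1 * lf (γ := γ) m) k
      rintro (i | k)
      · rw [← pc_aeval, aeval_inl]
        simp only [h0, mul_zero, Finset.sum_const_zero, zero_mul, add_zero]
      · rw [← pc_aeval, aeval_inr, h0, zero_mul])
    (pc_unit _ _)

end step

section linear

variable {R : Type} [CommRing R] {sep : Prop} {P : Sch R → Prop} (hP : Bnd sep P)

include hP

lemma p_poly_ring (τ : Type) [Fintype τ] : P (aff R (MvPolynomial τ R)) :=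
  iso_alg hP.toUni (renameEquiv R (Fintype.equivFin τ).symm) (hP.space _)

/-- linear subspaces -/
lemma p_linear {σ τ κ : Type} [Fintype τ] {G : κ → MvPolynomial σ R} (v : σ → MvPolynomial τ R)
    (hv : ∀ k, aeval v (G k) = 0) (u : τ → Pc G 1) (h1 : ∀ s, aeval u (v s) = pv G 1 s)
    (h2 : ∀ t, pcLift G 1 v hv (by rw [map_one]; exact isUnit_one) (u t) = X t) :
    P (aff R (Pc G 1)) := by
  refine iso_alg hP.toUni (AlgEquiv.ofAlgHom (aeval u)
    (pcLift G 1 v hv (by rw [map_one]; exact isUnit_one)) ?_ ?_) (p_poly_ring hP τ)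
  · apply pc_ext
    intro s
    rw [AlgHom.comp_apply, pcLift_pv, h1]
    rfl
  · apply MvPolynomial.algHom_ext
    intro s
    rw [AlgHom.comp_apply, aeval_X, h2]
    rfl

variable {α β γ : Type} [Fintype β] [Fintype γ] [DecidableEq γ]

omit [DecidableEq γ] in
/-- the open part where the linear form does not vanish -/
lemma p_open_part (m : β → R) : P (aff R (Pc (zr R β γ) (1 * lf (γ := γ) m))) := by
  refine pc_open hP ?_ ?_
  · refine p_linear hP (τ := Option β) (Sum.elim X fun _ => 0) (fun k => ?_)
      (fun j => pv _ _ (Sum.inl j)) ?_ fun j => ?_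
    · rw [zr, aeval_X, Sum.elim_inr]
    · rintro (j | k)
      · rw [Sum.elim_inl, aeval_X]
      · rw [Sum.elim_inr, map_zero]
        exact (pc_rel (zr R β γ) 1 k).symm
    · rw [pcLift_pv, Sum.elim_inl]
  · have hlf : pv (adj (zr R β γ) (lf (γ := γ) m)) 1 (Sum.inl none) +
        ∑ j, algebraMap R _ (m j) * pv (adj (zr R β γ) (lf (γ := γ) m)) 1
          (Sum.inl (some j)) = 0 := by
      rw [← aeval_lf, pc_aeval]
      exact pc_rel (adj (zr R β γ) (lf (γ := γ) m)) 1 none
    refine p_linear hP (τ := β)
      (Sum.elim (fun j => j.elim (-∑ j, C (m j) * X j) X) fun _ => 0) ?_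
      (fun j => pv _ _ (Sum.inl (some j))) ?_ fun j => ?_
    · rintro (_ | k)
      · change aeval _ (lf (γ := γ) m) = 0
        rw [aeval_lf]
        exact neg_add_cancel _
      · change aeval _ (zr R β γ k) = 0
        rw [zr, aeval_X, Sum.elim_inr]
    · rintro ((_ | j) | k)
      · change aeval _ (-∑ j, C (m j) * X j) = _
        rw [map_neg, map_sum]
        simp only [map_mul, algHom_C, aeval_X]
        linear_combination -hlf
      · exact aeval_X _ _
      · rw [Sum.elim_inr, map_zero]
        exact (pc_rel (adj (zr R β γ) (lf (γ := γ) m)) 1 (some k)).symm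
    · rw [pcLift_pv]
      rfl

/-- **Introduction of a new variable.** -/
theorem step (T : α → β → γ → R) (m : β → R) (t : α → γ → R)
    (h : P (aff R (Pc (bl (ext T m t)) 1))) : P (aff R (Pc (bl T) 1)) :=
  iso_alg hP.toUni (elimE T m t) (pc_closed hP h
    (iso_alg hP.toUni (openE T m t) (p_open_part hP m)))

end linear

section measure

/-- a measure of the distance of an integer from `{0, 1}` -/
def mu (x : ℤ) : ℕ := (max (2 * x - 2) (-2 * x - 1)).toNat

lemma mu_eq_zero {x : ℤ} (h : mu x = 0) : x = 0 ∨ x = 1 := by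
  rw [mu, Int.toNat_eq_zero] at h
  omega

lemma mu_zero : mu 0 = 0 := by decide

lemma mu_one : mu 1 = 0 := by decide

lemma mu_step {x : ℤ} (h : mu x ≠ 0) : ∃ s : ℤ, mu (x + s) = 0 ∧ mu s + 1 = mu x := by
  have h1 : x < 0 ∨ 2 ≤ x := by
    by_contra hcon
    have h2 : x = 0 ∨ x = 1 := by omega
    rcases h2 with rfl | rfl
    · exact h mu_zero
    · exact h mu_one
  rcases h1 with h1 | h1
  · refine ⟨-x, by rw [add_neg_cancel]; exact mu_zero, ?_⟩
    unfold mu
    omega
  · refine ⟨1 - x, by rw [add_sub_cancel]; exact mu_one, ?_⟩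
    unfold mu
    omega

variable {γ : Type} [Fintype γ] [DecidableEq γ]

lemma mu_ext {α β : Type} [Fintype α] [Fintype β] (T : α → β → γ → ℤ)
    (h : ∃ i j k, mu (T i j k) ≠ 0) : ∃ (m : β → ℤ) (t : α → γ → ℤ),
      (∑ i, ∑ j, ∑ k, mu (ext T m t i j k)) + 1 = ∑ i, ∑ j, ∑ k, mu (T i j k) := by
  classical
  obtain ⟨i0, j0, k0, h0⟩ := h
  obtain ⟨s, h1, h2⟩ := mu_step h0
  let m : β → ℤ := fun j => if j = j0 then 1 else 0
  let t : α → γ → ℤ := fun i k => if i = i0 then (if k = k0 then s else 0) else 0
  refine ⟨m, t, ?_⟩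
  have h3 : ∑ i, ∑ k, mu (t i k) = mu s := by
    rw [Finset.sum_eq_single i0, Finset.sum_eq_single k0]
    · simp [t]
    · intro k _ hk
      simp [t, hk, mu_zero]
    · intro h
      exact absurd (Finset.mem_univ _) h
    · intro i _ hi
      simp [t, hi, mu_zero]
    · intro h
      exact absurd (Finset.mem_univ _) h
  have h4 : ∑ i, ∑ j, ∑ k, mu (T i j k) =
      ∑ i, ∑ j, ∑ k, mu (T i j k + m j * t i k) + mu (T i0 j0 k0) := by
    have h5 : ∀ i j k, mu (T i j k) = mu (T i j k + m j * t i k) +
        if i = i0 then (if j = j0 then (if k = k0 then mu (T i0 j0 k0) else 0) else 0) else 0 := by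
      intro i j k
      by_cases hi : i = i0
      · by_cases hj : j = j0
        · by_cases hk : k = k0
          · subst hi hj hk
            simp [m, t, h1]
          · simp [m, t, hk]
        · simp [m, hj]
      · simp [t, hi]
    rw [Finset.sum_congr rfl fun i _ => Finset.sum_congr rfl fun j _ =>
      Finset.sum_congr rfl fun k _ => h5 i j k]
    simp only [Finset.sum_add_distrib]
    congr 1
    rw [Finset.sum_eq_single i0, Finset.sum_eq_single j0, Finset.sum_eq_single k0]
    · simp
    · intro k _ hk
      simp [hk]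
    · intro h
      exact absurd (Finset.mem_univ _) h
    · intro j _ hj
      simp [hj]
    · intro h
      exact absurd (Finset.mem_univ _) h
    · intro i _ hi
      simp [hi]
    · intro h
      exact absurd (Finset.mem_univ _) h
  have h6 : ∑ i, ∑ j, ∑ k, mu (ext T m t i j k) =
      ∑ i, ∑ k, mu (t i k) + ∑ i, ∑ j, ∑ k, mu (T i j k + m j * t i k) := by
    rw [Fintype.sum_sum_type]
    have h7 : ∑ k' : γ, ∑ j, ∑ k, mu (ext T m t (Sum.inr k') j k) = 0 := by
      apply Finset.sum_eq_zero
      intro k' _
      apply Finset.sum_eq_zero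
      intro j _
      apply Finset.sum_eq_zero
      intro k _
      change mu (if k = k' then j.elim 1 m else 0) = 0
      split_ifs
      · rcases j with _ | j
        · exact mu_one
        · change mu (if j = j0 then 1 else 0) = 0
          split_ifs
          · exact mu_one
          · exact mu_zero
      · exact mu_zero
    rw [h7, add_zero, ← Finset.sum_add_distrib]
    apply Finset.sum_congr rfl
    intro i _
    rw [Fintype.sum_option]
    rfl
  rw [h6, h3, h4, ← h2]
  ring

end measure

section main

variable {R : Type} [CommRing R] {sep : Prop} {P : Sch R → Prop} (hP : Bnd sep P)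
  {γ : Type} [Fintype γ] [DecidableEq γ]

omit [Fintype γ] in
lemma ext_cast {α β : Type} [Fintype β] (T : α → β → γ → ℤ) (m : β → ℤ) (t : α → γ → ℤ) :
    (fun i j k => ((ext T m t i j k : ℤ) : R)) =
      ext (fun i j k => (T i j k : R)) (fun j => (m j : R)) fun i k => (t i k : R) := by
  funext i j k
  rcases i with i | k' <;> rcases j with _ | j
  · rfl
  · change ((T i j k + m j * t i k : ℤ) : R) = T i j k + m j * t i k
    push_cast
    rfl
  · change ((if k = k' then (1 : ℤ) else 0 : ℤ) : R) = if k = k' then 1 else 0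
    split_ifs <;> simp
  · change ((if k = k' then m j else 0 : ℤ) : R) = if k = k' then (m j : R) else 0
    split_ifs <;> simp

include hP

lemma reduce (h01 : ∀ (α β : Type) [Fintype α] [Fintype β] (T : α → β → γ → ℤ),
      (∀ i j k, T i j k = 0 ∨ T i j k = 1) → P (aff R (Pc (bl fun i j k => (T i j k : R)) 1)))
    (n : ℕ) : ∀ (α β : Type) [Fintype α] [Fintype β] (T : α → β → γ → ℤ),
      ∑ i, ∑ j, ∑ k, mu (T i j k) = n → P (aff R (Pc (bl fun i j k => (T i j k : R)) 1)) := by
  induction n with
  | zero =>
    intro α β _ _ T hT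
    refine h01 α β T fun i j k => mu_eq_zero ?_
    simp only [Finset.sum_eq_zero_iff, Finset.mem_univ, forall_const] at hT
    exact hT i j k
  | succ n ih =>
    intro α β _ _ T hT
    obtain ⟨m, t, h⟩ := mu_ext T (by
      by_contra hcon
      push Not at hcon
      simp [hcon] at hT)
    refine step hP _ (fun j => (m j : R)) (fun i k => (t i k : R)) ?_
    have h2 := ih (α ⊕ γ) (Option β) (ext T m t) (by omega)
    rwa [ext_cast] at h2

/-- **Coefficients `0` and `1`, with the same number of variables of the third block.** -/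
theorem zero_one {c : ℕ} (hR : Function.Surjective (Int.cast : ℤ → R))
    (h : ∀ (a b : ℕ) (H : Finset (Fin a × Fin b × Fin c)), P (tripS R H)) (a b : ℕ)
    (T : Fin a → Fin b → Fin c → R) : P (hypS T) := by
  classical
  have h01 : ∀ (α β : Type) [Fintype α] [Fintype β] (T : α → β → Fin c → ℤ),
      (∀ i j k, T i j k = 0 ∨ T i j k = 1) →
      P (aff R (Pc (bl fun i j k => (T i j k : R)) 1)) := by
    intro α β _ _ T hT
    rw [← hyp_iff' hP, ← hyp_iff hP]
    let H : Finset (Fin (Fintype.card α) × Fin (Fintype.card β) × Fin c) :=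
      Finset.univ.filter fun h => T ((Fintype.equivFin α).symm h.1)
        ((Fintype.equivFin β).symm h.2.1) h.2.2 = 1
    have h1 : (fun i j k => if (i, j, k) ∈ H then (1 : R) else 0) = fun i j k =>
        (T ((Fintype.equivFin α).symm i) ((Fintype.equivFin β).symm j) k : R) := by
      funext i j k
      have hm : (i, j, k) ∈ H ↔ T ((Fintype.equivFin α).symm i)
          ((Fintype.equivFin β).symm j) k = 1 := by
        rw [Finset.mem_filter]
        exact ⟨fun h => h.2, fun h => ⟨Finset.mem_univ _, h⟩⟩
      rcases hT ((Fintype.equivFin α).symm i) ((Fintype.equivFin β).symm j) k with h2 | h2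
      · rw [if_neg fun h3 => by rw [hm, h2] at h3; exact zero_ne_one h3, h2, Int.cast_zero]
      · rw [if_pos (hm.2 h2), h2, Int.cast_one]
    have h2 := h _ _ H
    unfold tripS Trip at h2
    rw [← tri_ind, h1] at h2
    exact iso_alg hP.toUni (hypRename (Equiv.refl _) (Fintype.equivFin β).symm (Equiv.refl _)
      fun i j k => (T ((Fintype.equivFin α).symm i) j k : R)) h2
  choose S hS using hR
  have h1 := reduce hP h01 _ (Fin a) (Fin b) (fun i j k => S (T i j k)) rfl
  have h2 : (fun i j k => ((S (T i j k) : ℤ) : R)) = T := by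
    funext i j k
    exact hS _
  rw [h2] at h1
  exact (hyp_iff hP T).2 h1

end main

end Pool.Agent.Q27.BG
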