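import Pool.Agent.Q27.BG.Reg
import Pool.Agent.Q27.BG.Zo
import Pool.Agent.Q27.BG.Cur

/-!
# Regular schemes with fibres of bounded dimension
-/

set_option autoImplicit false

namespace Pool.Agent.Q27.BG

open MvPolynomial CategoryTheory AlgebraicGeometry TensorProduct
open Pool.Agent.Y116.UV Pool.Agent.Z125.UN Q54.CU Q54.ZE Pool.Agent.H920R2

lemma ft_inst {B : Type} [CommRing B] (i1 i2 : Algebra ℤ B)
    (h : @Algebra.FiniteType ℤ B _ _ i1) : @Algebra.FiniteType ℤ B _ _ i2 := by
  rwa [Subsingleton.elim i2 i1]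

/-- A domain of finite type over the integers is generically regular. -/
theorem exists_regular (B : Type) [CommRing B] [IsDomain B] [Algebra.FiniteType ℤ B] :
    ∃ w : B, w ≠ 0 ∧ ∀ (q : Ideal (Localization.Away w)) [q.IsPrime],
      IsRegularLocalRing (Localization.AtPrime q) := by
  obtain ⟨q, hq⟩ := CharP.exists B
  rcases CharP.char_is_prime_or_zero B q with h0 | rfl
  · have : Fact q.Prime := ⟨h0⟩
    let _ : Algebra (ZMod q) B := ZMod.algebra B q
    have h1 : Algebra.FiniteType (ZMod q) B := by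
      have : IsScalarTower ℤ (ZMod q) B := IsScalarTower.of_algebraMap_eq' (RingHom.ext_int _ _)
      exact Algebra.FiniteType.of_restrictScalars_finiteType ℤ (ZMod q) B
    obtain ⟨w, hw, hs⟩ := exists_smooth (k := ZMod q) B
    exact ⟨w, hw, fun p _ => regular_smooth (k := ZMod q) p⟩
  · have : CharZero B := CharP.charP_to_charZero B
    obtain ⟨w, hw, hs⟩ := exists_smooth_int B
    exact ⟨w, hw, fun p _ => regular_smooth (k := ℤ) p⟩

variable {P : Sch ℤ → Prop} (hP : Bnd False P)

include hP

/-- From affine schemes to all schemes with fibres of dimension at most `n`. -/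
lemma fib_of_affine {n : ℕ} (h : ∀ (A : Type) [CommRing A] [Algebra ℤ A] [Algebra.FiniteType ℤ A],
      FibLE n (Spec.map (CommRingCat.ofHom (algebraMap ℤ A))) → P (aff ℤ A)) (X : Sch ℤ)
    (hX : FT False X) (hn : FibLE n (X := X.left) X.hom) : P X := by
  refine of_affine' (P := fun X => FibLE n (X := X.left) X.hom → P X) (sep := False) ?_ ?_ ?_ X
    hX hn
  · intro X Y hX e hPX hY
    refine hP.iso hX e (hPX ?_)
    obtain ⟨e⟩ := e
    have h1 : X.hom = e.hom.left ≫ Y.hom := (Over.w e.hom).symm
    rw [h1]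
    have : IsIso e.hom.left := inferInstanceAs (IsIso ((Over.forget _).map e.hom))
    exact FibLE.comp_open hY e.hom.left
  · intro Z X U i j hX ht hZ hU hn
    refine hP.total i j hX ht (hZ ?_) (hU ?_)
    · have h1 : Z.hom = i.left ≫ X.hom := (Over.w i).symm
      rw [h1]
      have := ht.closed
      exact FibLE.comp_closed hn i.left
    · have h1 : U.hom = j.left ≫ X.hom := (Over.w j).symm
      rw [h1]
      have := ht.opened
      exact FibLE.comp_open hn j.left
  · intro A _ _ _ hA
    exact h A hA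

omit hP in
lemma fib_away {n : ℕ} {B : Type} [CommRing B] (w : B)
    (h : FibLE n (Spec.map (CommRingCat.ofHom (algebraMap ℤ B)))) (inst : Algebra ℤ
      (Localization.Away w)) :
    FibLE n (Spec.map (CommRingCat.ofHom (@algebraMap ℤ (Localization.Away w) _ _ inst))) := by
  have h1 : Spec.map (CommRingCat.ofHom (@algebraMap ℤ (Localization.Away w) _ _ inst)) =
      Spec.map (CommRingCat.ofHom (algebraMap B (Localization.Away w))) ≫
        Spec.map (CommRingCat.ofHom (algebraMap ℤ B)) := by
    rw [← Spec.map_comp, ← CommRingCat.ofHom_comp]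
    congr 2
    exact RingHom.ext_int _ _
  rw [h1]
  have h2 : IsOpenImmersion (Spec.map (CommRingCat.ofHom (algebraMap B (Localization.Away w)))) :=
    IsOpenImmersion.of_isLocalization w
  exact FibLE.comp_open h _

/-- From regular affine schemes to all affine schemes. -/
lemma fib_regular {n : ℕ}
    (h : ∀ X : Sch ℤ, FT False X → IsRegularSch X.left → FibLE n (X := X.left) X.hom → P X)
    (A : Type) [CommRing A] [inst : Algebra ℤ A] [Algebra.FiniteType ℤ A]
    (hA : FibLE n (Spec.map (CommRingCat.ofHom (algebraMap ℤ A)))) : P (aff ℤ A) := by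
  obtain rfl : inst = Ring.toIntAlgebra A := Subsingleton.elim _ _
  refine noeth hP (fun B _ _ hB => p_empty hP B hB) fun p hp => ?_
  have hBft : @Algebra.FiniteType ℤ (A ⧸ p) _ _ (Ring.toIntAlgebra (A ⧸ p)) :=
    Algebra.FiniteType.of_surjective (Ideal.Quotient.mk p).toIntAlgHom Ideal.Quotient.mk_surjective
  obtain ⟨w, hw, h1⟩ := exists_regular (A ⧸ p)
  have h2 : FibLE n (Spec.map (CommRingCat.ofHom (@algebraMap ℤ (A ⧸ p) _ _
      (Ring.toIntAlgebra (A ⧸ p))))) := by
    rw [fib_affine] at hA ⊢
    exact fun K _ => (dim_surj (Ideal.Quotient.mk p) Ideal.Quotient.mk_surjective K).trans (hA K)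
  refine ⟨w, hw, h _ (ft_aff False) (reg_aff h1) (fib_away w h2 _)⟩

/-- **Schemes with fibres of dimension at most `d` and trilinear forms with `d + 2` variables in the
third block.** -/
theorem fib_main (d : ℕ) : List.TFAE
    [∀ X : Sch ℤ, FT False X → IsRegularSch X.left → FibLE d (X := X.left) X.hom → P X,
      ∀ X : Sch ℤ, FT False X → FibLE d (X := X.left) X.hom → P X,
      ∀ (a b : ℕ) (H : Finset (Fin a × Fin b × Fin (d + 2))), P (tripS ℤ H),
      ∀ (a b c : ℕ) (T : Fin a → Fin b → Fin c → ℤ), a ≤ d + 2 ∨ b ≤ d + 2 ∨ c ≤ d + 2 →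
        P (hypS T)] := by
  tfae_have 1 → 2 := fun h => fib_of_affine hP (fun A _ _ _ hA => fib_regular hP h A hA)
  tfae_have 2 → 1 := fun h X hX _ hn => h X hX hn
  tfae_have 2 → 4 := by
    intro h a b c T hT
    exact of_block hP (fun a b c' hc T => to_tri hP (fib_to_closed hP h) a b c' hc T) T hT
  tfae_have 4 → 3 := by
    intro h a b H
    have h1 := h a b (d + 2) (fun i j k => if (i, j, k) ∈ H then (1 : ℤ) else 0)
      (Or.inr (Or.inr le_rfl))
    unfold hypS Hyp at h1
    rw [tri_ind] at h1
    exact h1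
  tfae_have 3 → 2 := fun h => (fib_tri hP d).2 fun a b T =>
    zero_one hP (fun x => ⟨x, Int.cast_id⟩) h a b T
  tfae_finish

end Pool.Agent.Q27.BG
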