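import Pool.Agent.H920R2.Sr1
import Pool.Agent.Q54.CU.Reg
import Pool.Agent.Q54.ZE.Fib
import Pool.Agent.Z125.UN.Dim2

/-!
# Domains of finite type over the integers are generically regular
-/

set_option autoImplicit false

namespace Pool.Agent.Q27.BG

open MvPolynomial CategoryTheory AlgebraicGeometry
open Pool.Agent.Y116.UV Pool.Agent.Z125.UN Q54.CU Q54.ZE Pool.Agent.H920R2

/-- Smooth algebras over a regular ring are regular. -/
theorem regular_smooth {k A : Type} [CommRing k] [IsRegularRing k] [CommRing A] [Algebra k A]
    [Algebra.Smooth k A] (q : Ideal A) [q.IsPrime] :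
    IsRegularLocalRing (Localization.AtPrime q) := by
  have hsm : Algebra.IsSmoothAt k q := inferInstance
  obtain ⟨f, hf, n, alg, tower, het⟩ :=
    Algebra.IsSmoothAt.exists_isStandardEtale_mvPolynomial (R := k) (S := A) (p := q)
  have het' : Algebra.Etale (MvPolynomial (Fin n) k) (Localization.Away f) := inferInstance
  have hQ : (Ideal.map (algebraMap A (Localization.Away f)) q).IsPrime :=
    IsLocalization.isPrime_of_isPrime_disjoint (.powers f) _ _ ‹_›
      ((Ideal.disjoint_powers_iff_notMem_of_isPrime _).mpr hf)
  have h1 := regular_of_etale (P := MvPolynomial (Fin n) k)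
    (Ideal.map (algebraMap A (Localization.Away f)) q)
  have h2 : (Ideal.map (algebraMap A (Localization.Away f)) q).under A = q :=
    IsLocalization.under_map_of_isPrime_disjoint (.powers f) _ ‹_›
      ((Ideal.disjoint_powers_iff_notMem_of_isPrime _).mpr hf)
  have h3 := IsLocalization.isLocalization_isLocalization_atPrime_isLocalization (.powers f)
    (Localization.AtPrime (Ideal.map (algebraMap A (Localization.Away f)) q))
    (Ideal.map (algebraMap A (Localization.Away f)) q)
  simp only [h2] at h3
  exact IsRegularLocalRing.of_ringEquiv (IsLocalization.algEquiv q.primeCompl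
    (Localization.AtPrime (Ideal.map (algebraMap A (Localization.Away f)) q))
    (Localization.AtPrime q)).toRingEquiv

/-- Spectra of regular rings. -/
lemma reg_aff {R A : Type} [CommRing R] [CommRing A] [Algebra R A]
    (h : ∀ (q : Ideal A) [q.IsPrime], IsRegularLocalRing (Localization.AtPrime q)) :
    IsRegularSch (aff R A).left := by
  intro x
  let y : PrimeSpectrum A := x
  have h1 := h y.asIdeal
  exact IsRegularLocalRing.of_ringEquiv
    (Spec.stalkIso (CommRingCat.of A) x).symm.commRingCatIsoToRingEquiv

/-- The hypersurfaces are regular. -/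
lemma reg_hypS {R : Type} [CommRing R] [IsRegularRing R] {a b c : ℕ}
    (T : Fin a → Fin b → Fin c → R) : IsRegularSch (hypS T).left := by
  have h := hyp_smooth T
  exact reg_aff fun q _ => regular_smooth (k := R) q

lemma fs_int (B K : Type) [CommRing B] [Algebra.FiniteType ℤ B] [Field K] [CharZero K]
    [Algebra B K] [IsFractionRing B K] : Algebra.FormallySmooth ℤ K := by
  have hef : Algebra.EssFiniteType B K :=
    Algebra.EssFiniteType.of_isLocalization K (nonZeroDivisors B)
  have hef2 : Algebra.EssFiniteType ℤ K := Algebra.EssFiniteType.comp ℤ B K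
  have hef3 : Algebra.EssFiniteType ℚ K := Algebra.EssFiniteType.of_comp ℤ ℚ K
  have h1 : Algebra.FormallySmooth ℤ ℚ := Algebra.FormallySmooth.of_isLocalization (nonZeroDivisors ℤ)
  have h2 : Algebra.FormallySmooth ℚ K := Algebra.FormallySmooth.of_perfectField
  exact Algebra.FormallySmooth.comp ℤ ℚ K

lemma fs_inst {K : Type} [CommRing K] (i1 i2 : Algebra ℤ K)
    (h : @Algebra.FormallySmooth ℤ K _ _ i1) : @Algebra.FormallySmooth ℤ K _ _ i2 := by
  rwa [Subsingleton.elim i2 i1]

/-- A domain of finite type over the integers of characteristic zero is generically smooth. -/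
lemma exists_smooth_int (B : Type) [CommRing B] [IsDomain B] [CharZero B]
    [Algebra.FiniteType ℤ B] : ∃ w : B, w ≠ 0 ∧ Algebra.Smooth ℤ (Localization.Away w) := by
  have h1 : Algebra.FinitePresentation ℤ B := Algebra.FinitePresentation.of_finiteType.mp
    inferInstance
  have h2 : (⊥ : Ideal B).IsPrime := Ideal.isPrime_bot
  have h4 : Algebra.IsSmoothAt ℤ (⊥ : Ideal B) := by
    have hb : (⊥ : Ideal B).primeCompl = nonZeroDivisors B := by
      ext x
      rw [mem_nonZeroDivisors_iff_ne_zero]
      rfl
    have hl : IsLocalization (⊥ : Ideal B).primeCompl (FractionRing B) := by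
      rw [hb]
      infer_instance
    have h5 : Algebra.FormallySmooth ℤ (FractionRing B) := fs_inst _ _ (fs_int B (FractionRing B))
    exact Algebra.FormallySmooth.of_equiv ((IsLocalization.algEquiv (⊥ : Ideal B).primeCompl
      (FractionRing B) (Localization.AtPrime (⊥ : Ideal B))).restrictScalars ℤ)
  obtain ⟨w, hw, hs⟩ := Algebra.IsSmoothAt.exists_notMem_smooth ℤ (⊥ : Ideal B)
  exact ⟨w, fun h => hw (by rw [h]; exact Ideal.zero_mem _), hs⟩

end Pool.Agent.Q27.BG
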